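import Mathlib
import Pool.Agent.X149.PP.Mix

set_option autoImplicit false

namespace Pool.Agent.X149.PP.Lg

open Finset

/-- The bias of one term, from the number of odd terms; lower bound only in the upper half. -/
theorem bias3 {b : Set ℕ → ℕ → ZMod 2} (hb : Good b) {δ : ℕ → ℝ} {d : ℝ} (hd : 0 ≤ d)
    (hd2 : d ≤ 1 / 2) (n : ℕ) (hn : 1 ≤ n) (hδ0 : ∀ m ∈ Icc 1 n, 0 ≤ δ m ∧ δ m ≤ 1 / 2)
    (hδ : ∀ m ∈ Ioc (n / 2) n, d ≤ δ m) {W : ℕ} (hW : W ≤ n - n / 2 - 1) (t : ℝ) :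
    |E δ (Icc 1 n) (fun S => sg (b (S : Set ℕ) n))| ≤
      few b δ W t + Real.exp (-(2 * d * t)) := by
  set k := n / 2 with hk
  set l := n - k - 1 with hl
  have hun : Icc 1 n = Icc 1 k ∪ Ioc k n := by
    ext x; simp only [mem_Icc, mem_union, mem_Ioc]; omega
  have hδk : ∀ m ∈ Icc 1 k, 0 ≤ δ m ∧ δ m ≤ 1 := fun m hm => by
    have := hδ0 m (by rw [mem_Icc] at hm ⊢; omega)
    exact ⟨this.1, by linarith⟩
  have h1 := bias_aux hb δ (k := k) (n := n) (by omega) (Ioc k n) (fun m hm => mem_Ioc.1 hm)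
    (fun _ => 1) (fun _ _ _ => rfl)
  simp only [mul_one, one_mul] at h1
  rw [hun, h1]
  have hr0 : (0 : ℝ) ≤ 1 - 2 * d := by linarith
  have h2 : ∀ S ⊆ Icc 1 k, |sg (b (S : Set ℕ) n) *
      ∏ m ∈ Ioc k n, (1 - 2 * δ m * od (b (S : Set ℕ) (n - m)))| ≤ (1 - 2 * d) ^ cnt b l S := by
    intro S _
    rw [abs_mul, sg_abs, one_mul, abs_prod]
    have h3 : ∏ m ∈ Ioc k n, |1 - 2 * δ m * od (b (S : Set ℕ) (n - m))| ≤
        ∏ m ∈ Ioc k n, (if b (S : Set ℕ) (n - m) ≠ 0 then 1 - 2 * d else 1) := by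
      refine prod_le_prod (fun m _ => abs_nonneg _) fun m hm => ?_
      have hm' := hδ0 m (by rw [mem_Ioc] at hm; rw [mem_Icc]; omega)
      have hm'' := hδ m hm
      unfold od
      by_cases h : b (S : Set ℕ) (n - m) = 0
      · simp [h]
      · rw [if_neg h, if_pos h, mul_one, abs_of_nonneg (by linarith)]
        linarith
    refine h3.trans ?_
    rw [prod_ite, prod_const, prod_const_one, mul_one]
    refine le_of_eq ?_
    congr 1
    unfold cnt
    refine card_nbij' (fun m => n - m) (fun j => n - j) ?_ ?_ ?_ ?_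
    · intro m hm
      simp only [coe_filter, mem_Ioc, Set.mem_ofPred_eq, mem_range] at hm ⊢
      exact ⟨by omega, hm.2⟩
    · intro j hj
      simp only [coe_filter, mem_Ioc, Set.mem_ofPred_eq, mem_range] at hj ⊢
      refine ⟨by omega, ?_⟩
      rw [show n - (n - j) = j by omega]
      exact hj.2
    · intro m hm
      simp only [coe_filter, mem_Ioc, Set.mem_ofPred_eq] at hm
      beta_reduce
      omega
    · intro j hj
      simp only [coe_filter, mem_range, Set.mem_ofPred_eq] at hj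
      beta_reduce
      omega
  have h5 : ∀ S ⊆ Icc 1 k, |sg (b (S : Set ℕ) n) *
      ∏ m ∈ Ioc k n, (1 - 2 * δ m * od (b (S : Set ℕ) (n - m)))| ≤
      (if (cnt b W S : ℝ) < t then 1 else 0) + Real.exp (-(2 * d * t)) := by
    intro S hS
    refine (h2 S hS).trans ?_
    split_ifs with h
    · have h2 : (1 - 2 * d) ^ cnt b l S ≤ 1 := pow_le_one₀ (by linarith) (by linarith)
      linarith [Real.exp_pos (-(2 * d * t))]
    · push Not at h
      rw [zero_add]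
      have h2 : t ≤ cnt b l S := h.trans (by exact_mod_cast cnt_mono b S hW)
      have h3 : 1 - 2 * d ≤ Real.exp (-(2 * d)) := by
        have := Real.add_one_le_exp (-(2 * d))
        linarith
      calc (1 - 2 * d) ^ cnt b l S ≤ Real.exp (-(2 * d)) ^ cnt b l S :=
            pow_le_pow_left₀ (by linarith) h3 _
        _ = Real.exp (cnt b l S * (-(2 * d))) := by rw [Real.exp_nat_mul]
        _ ≤ _ := by
          rw [Real.exp_le_exp]
          nlinarith
  refine (E_abs hδk h5).trans (le_of_eq ?_)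
  rw [E_add, E_const]
  congr 1
  have hun2 : Icc 1 k = Icc 1 W ∪ Ioc W k := by
    ext x; simp only [mem_Icc, mem_union, mem_Ioc]; omega
  have hdis2 : Disjoint (Icc 1 W) (Ioc W k) := by
    rw [disjoint_left]; intro x; simp only [mem_Icc, mem_Ioc]; omega
  rw [hun2, E_union_inv δ hdis2]
  · rfl
  · intro m hm S
    rw [mem_Ioc] at hm
    rw [hb.cnt_insert S hm.1]

/-- One step at the scale `4 ^ j`. -/
lemma stepj {b : Set ℕ → ℕ → ZMod 2} (hb : Good b) {δ : ℕ → ℝ} {j : ℕ} {ρ t : ℝ}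
    (hδ1 : ∀ m : ℕ, 0 ≤ δ m ∧ δ m ≤ 1 / 2)
    (hδ : ∀ m : ℕ, 2 ^ (2 * j) ≤ m → δ m = (Nat.log 2 m : ℝ) ^ 8 / m)
    (hρ : 1 ≤ ρ) (ht : 0 < t) (htd : t * ((2 * j + 1 : ℕ) : ℝ) ^ 8 ≤ ρ * 4 ^ (j + 1))
    (hW : 32 * ρ ^ 2 ≤ ((2 * j + 1 : ℕ) : ℝ) ^ 8) :
    few b δ (4 ^ (j + 1)) (ρ * t) ≤ few b δ (4 ^ j) t +
      512 * 512 * ρ ^ 4 / ((2 * j + 1 : ℕ) : ℝ) ^ 8 := by
  set L : ℝ := ((2 * j + 1 : ℕ) : ℝ) with hL
  have hL1 : 1 ≤ L := by rw [hL]; exact_mod_cast (by omega : 1 ≤ 2 * j + 1)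
  have h4j : (0 : ℝ) < 4 ^ (j + 1) := by positivity
  set d : ℝ := L ^ 8 / 4 ^ (j + 1) with hd
  have hd0 : 0 < d := by positivity
  have hWd : ((4 ^ j : ℕ) : ℝ) * d = L ^ 8 / 4 := by
    rw [hd]; push_cast; rw [pow_succ]; field_simp; try ring
  have hst := step hb (δ := δ) (W := 4 ^ j) (d := d) (A := 512) (ρ := ρ) (t := t)
    (fun m _ => ⟨(hδ1 m).1, by linarith [(hδ1 m).2]⟩)
    (fun m hm => by
      rw [mem_Ioc] at hm
      have hpow : (4 : ℕ) ^ j = 2 ^ (2 * j) := by rw [pow_mul]; norm_num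
      have hm1 : 2 ^ (2 * j + 1) ≤ m := by
        rw [pow_succ, ← hpow]; omega
      have hm2 : m ≤ 2 ^ (2 * j + 2) := by
        rw [pow_add, ← hpow]; omega
      have hm0 : 0 < m := lt_of_lt_of_le (by positivity) hm1
      have hm0' : (0 : ℝ) < m := by exact_mod_cast hm0
      have e1 := hδ m (le_trans (Nat.pow_le_pow_right (by norm_num) (by omega)) hm1)
      have hlog1 : 2 * j + 1 ≤ Nat.log 2 m := Nat.le_log_of_pow_le (by norm_num) hm1
      have hlog2 : Nat.log 2 m ≤ 2 * j + 2 := by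
        have := Nat.log_mono_right (b := 2) hm2
        rwa [Nat.log_pow (by norm_num)] at this
      have hl1 : L ≤ (Nat.log 2 m : ℝ) := by rw [hL]; exact_mod_cast hlog1
      have hl2 : (Nat.log 2 m : ℝ) ≤ 2 * L := by
        rw [hL]; exact_mod_cast (by omega : Nat.log 2 m ≤ 2 * (2 * j + 1))
      have hmr2 : (m : ℝ) ≤ 4 ^ (j + 1) := by
        have : m ≤ 4 ^ (j + 1) := by rw [pow_succ]; omega
        exact_mod_cast this
      have hmr1 : (4 : ℝ) ^ (j + 1) ≤ 2 * m := by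
        have : 4 ^ (j + 1) ≤ 2 * m := by rw [pow_succ]; omega
        exact_mod_cast this
      refine ⟨?_, ?_, (hδ1 m).2⟩
      · rw [e1, hd]
        exact div_le_div₀ (by positivity) (pow_le_pow_left₀ (by linarith) hl1 8) hm0' hmr2
      · rw [e1, hd, div_le_iff₀ hm0']
        have h1 : (Nat.log 2 m : ℝ) ^ 8 ≤ (2 * L) ^ 8 := pow_le_pow_left₀ (by positivity) hl2 8
        have h2 : 512 * (L ^ 8 / 4 ^ (j + 1)) * (m : ℝ) = 256 * L ^ 8 * (2 * m / 4 ^ (j + 1)) := by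
          field_simp; ring
        have h3 : 1 ≤ 2 * (m : ℝ) / 4 ^ (j + 1) := by
          rw [le_div_iff₀ h4j, one_mul]; exact hmr1
        rw [h2]
        have h4 : (2 * L) ^ 8 = 256 * L ^ 8 * 1 := by ring
        rw [h4] at h1
        exact h1.trans (mul_le_mul_of_nonneg_left h3 (by positivity)))
    hd0 hρ ht
    (by rw [hd, ← mul_div_assoc, div_le_iff₀ h4j]; exact htd)
    (by rw [hWd]; linarith)
  rw [hWd] at hst
  have h4 : 4 ^ (j + 1) = 4 * 4 ^ j := by ring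
  rw [h4]
  refine hst.trans (le_of_eq ?_)
  congr 1
  have : L ^ 8 ≠ 0 := by positivity
  field_simp
  ring

end Pool.Agent.X149.PP.Lg
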