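import Mathlib
import Pool.Agent.X149.PP.Lg.Bias

set_option autoImplicit false

namespace Pool.Agent.X149.PP.Lg

open Finset

lemma pw : ∀ u : ℕ, 32 ≤ u → (2 * u + 2) ^ 8 * 8 ≤ 4 ^ u := by
  intro u hu
  induction u, hu using Nat.le_induction with
  | base => norm_num
  | succ u hu ih =>
    have h1 : (2 * (u + 1) + 2) * 33 ≤ 34 * (2 * u + 2) := by omega
    have h2 := Nat.pow_le_pow_left h1 8
    rw [mul_pow, mul_pow] at h2
    have h3 : (34 : ℕ) ^ 8 ≤ 4 * 33 ^ 8 := by norm_num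
    have h4 : (2 * (u + 1) + 2) ^ 8 * 33 ^ 8 ≤ 4 * (2 * u + 2) ^ 8 * 33 ^ 8 := by
      calc (2 * (u + 1) + 2) ^ 8 * 33 ^ 8 ≤ 34 ^ 8 * (2 * u + 2) ^ 8 := h2
        _ ≤ (4 * 33 ^ 8) * (2 * u + 2) ^ 8 := Nat.mul_le_mul_right _ h3
        _ = 4 * (2 * u + 2) ^ 8 * 33 ^ 8 := by ring
    have h5 : (2 * (u + 1) + 2) ^ 8 ≤ 4 * (2 * u + 2) ^ 8 :=
      Nat.le_of_mul_le_mul_right h4 (by norm_num)
    calc (2 * (u + 1) + 2) ^ 8 * 8 ≤ (4 * (2 * u + 2) ^ 8) * 8 := Nat.mul_le_mul_right _ h5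
      _ = 4 * ((2 * u + 2) ^ 8 * 8) := by ring
      _ ≤ 4 * 4 ^ u := Nat.mul_le_mul_left _ ih
      _ = 4 ^ (u + 1) := by ring

/-- The main estimate at a large scale. -/
lemma large {b : Set ℕ → ℕ → ZMod 2} (hb : Good b) {δ : ℕ → ℝ}
    (hδ1 : ∀ m : ℕ, 0 ≤ δ m ∧ δ m ≤ 1 / 2)
    (hδ : ∀ m : ℕ, 2 ^ 64 ≤ m → δ m = (Nat.log 2 m : ℝ) ^ 8 / m) {u n : ℕ} (hu : 4096 ≤ u)
    (hn1 : 2 ^ (2 * u + 4) ≤ n) (hn2 : n < 2 ^ (2 * u + 6)) :
    |E δ (Icc 1 n) (fun S => sg (b (S : Set ℕ) n))| ≤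
      (512 * 512 * 64 ^ 4 + 512 * 512 + 24 * 32 ^ 4) / (u : ℝ) ^ 4 := by
  have hur : (4096 : ℝ) ≤ u := by exact_mod_cast hu
  have hu0 : (0 : ℝ) < u := by linarith
  set B : ℕ := (2 * u) ^ 8 with hB
  have hB0 : 0 < B := by positivity
  set q : ℕ := 4 ^ u / B with hq
  have hBq : B ≤ 4 ^ u := by
    have h1 := pw u (by omega)
    have h2 : (2 * u) ^ 8 ≤ (2 * u + 2) ^ 8 := Nat.pow_le_pow_left (by omega) 8
    rw [hB]; omega
  have hq0 : q ≠ 0 := by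
    have : 0 < q := Nat.div_pos hBq hB0
    omega
  set e : ℕ := Nat.log 64 q + 1 with he
  have hlow : 64 ^ (e - 1) * B ≤ 4 ^ u := by
    have h1 : 64 ^ (e - 1) ≤ q := by
      rw [he, Nat.add_sub_cancel]; exact Nat.pow_log_le_self 64 hq0
    calc 64 ^ (e - 1) * B ≤ q * B := Nat.mul_le_mul_right _ h1
      _ ≤ 4 ^ u := Nat.div_mul_le_self _ _
  have hhigh : 4 ^ u ≤ 64 ^ e * B := by
    have h1 : q < 64 ^ e := Nat.lt_pow_succ_log_self (by norm_num) q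
    have h2 : 4 ^ u < B * (q + 1) := Nat.lt_mul_div_succ _ hB0
    calc 4 ^ u ≤ B * (q + 1) := h2.le
      _ ≤ B * 64 ^ e := Nat.mul_le_mul_left _ h1
      _ = 64 ^ e * B := by ring
  have he3 : 3 * (e - 1) ≤ u := by
    have h1 : 64 ^ (e - 1) ≤ 4 ^ u := by
      calc 64 ^ (e - 1) = 64 ^ (e - 1) * 1 := (mul_one _).symm
        _ ≤ 64 ^ (e - 1) * B := Nat.mul_le_mul_left _ hB0
        _ ≤ 4 ^ u := hlow
    have h2 : (64 : ℕ) ^ (e - 1) = 4 ^ (3 * (e - 1)) := by rw [pow_mul]; norm_num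
    rw [h2] at h1
    exact (Nat.pow_le_pow_iff_right (by norm_num)).1 h1
  set v : ℕ := u - e with hv
  have hev : v + e = u := by omega
  have hv2 : u ≤ 2 * v + 1 := by omega
  set η : ℝ := 512 * 512 * 64 ^ 4 / (u : ℝ) ^ 8 with hη
  have hη0 : 0 ≤ η := by positivity
  have hδj : ∀ j : ℕ, v ≤ j → ∀ m : ℕ, 2 ^ (2 * j) ≤ m → δ m = (Nat.log 2 m : ℝ) ^ 8 / m := by
    intro j hj m hm
    refine hδ m (le_trans (Nat.pow_le_pow_right (by norm_num) ?_) hm)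
    omega
  have key : ∀ i ≤ e, few b δ (4 ^ (v + i)) (64 ^ i) ≤ i * η := by
    intro i
    induction i with
    | zero =>
      intro _
      simp only [pow_zero, Nat.cast_zero, zero_mul]
      refine le_of_eq ?_
      unfold few
      refine (E_congr δ fun S _ => ?_).trans (E_const δ _ 0)
      have h1 := hb.one_le_cnt (4 ^ (v + 0)) S
      have h2 : (1 : ℝ) ≤ cnt b (4 ^ (v + 0)) S := by exact_mod_cast h1
      rw [if_neg (by linarith)]
    | succ i ih =>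
      intro hi
      have hL : (u : ℝ) ≤ ((2 * (v + i) + 1 : ℕ) : ℝ) := by
        exact_mod_cast (by omega : u ≤ 2 * (v + i) + 1)
      have htd : 64 ^ i * (2 * (v + i) + 1) ^ 8 ≤ 64 * 4 ^ (v + i + 1) := by
        have h1 : (2 * (v + i) + 1) ^ 8 ≤ B := Nat.pow_le_pow_left (by omega) 8
        have h2 : 64 ^ i * B * 64 ^ (e - 1 - i) ≤ 64 * 4 ^ (v + i + 1) * 64 ^ (e - 1 - i) := by
          calc 64 ^ i * B * 64 ^ (e - 1 - i) = 64 ^ (e - 1) * B := by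
                rw [show e - 1 = i + (e - 1 - i) by omega, pow_add,
                  show i + (e - 1 - i) - i = e - 1 - i by omega]
                ring
            _ ≤ 4 ^ u := hlow
            _ = 4 ^ (v + i + 1) * 4 ^ (e - 1 - i) := by
                rw [← pow_add]; congr 1; omega
            _ ≤ 64 * 4 ^ (v + i + 1) * 64 ^ (e - 1 - i) :=
                Nat.mul_le_mul (by omega) (Nat.pow_le_pow_left (by norm_num) _)
        have h3 := Nat.le_of_mul_le_mul_right h2 (by positivity)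
        exact (Nat.mul_le_mul_left _ h1).trans h3
      have hst := stepj hb (δ := δ) (j := v + i) (ρ := 64) (t := 64 ^ i) hδ1
        (hδj (v + i) (by omega)) (by norm_num) (by positivity)
        (by exact_mod_cast htd)
        (by
          have h1 : (4096 : ℝ) ^ 8 ≤ ((2 * (v + i) + 1 : ℕ) : ℝ) ^ 8 :=
            pow_le_pow_left₀ (by norm_num) (hur.trans hL) 8
          refine le_trans ?_ h1
          norm_num)
      have h1 := ih (by omega)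
      have h2 : (512 : ℝ) * 512 * 64 ^ 4 / ((2 * (v + i) + 1 : ℕ) : ℝ) ^ 8 ≤ η := by
        rw [hη]
        exact div_le_div_of_nonneg_left (by positivity) (by positivity)
          (pow_le_pow_left₀ hu0.le hL 8)
      rw [pow_succ (64 : ℝ) i, mul_comm ((64 : ℝ) ^ i) 64]
      push_cast at hst h2 ⊢
      have h3 : few b δ (4 ^ (v + i + 1)) (64 * 64 ^ i) ≤ i * η + η := by linarith
      calc few b δ (4 ^ (v + (i + 1))) (64 * 64 ^ i) = few b δ (4 ^ (v + i + 1)) (64 * 64 ^ i) := rfl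
        _ ≤ i * η + η := h3
        _ = (i + 1) * η := by ring
  have hfe := key e le_rfl
  rw [hev] at hfe
  -- the last step
  have hL : (u : ℝ) ≤ ((2 * u + 1 : ℕ) : ℝ) := by exact_mod_cast (by omega : u ≤ 2 * u + 1)
  have hlast : 64 ^ e * (2 * u + 1) ^ 8 ≤ u * 4 ^ (u + 1) := by
    have h1 : (2 * u + 1) ^ 8 ≤ 256 * B := by
      calc (2 * u + 1) ^ 8 ≤ (2 * (2 * u)) ^ 8 := Nat.pow_le_pow_left (by omega) 8
        _ = 256 * B := by rw [hB]; ring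
    have h2 : 64 ^ e = 64 * 64 ^ (e - 1) := by
      rw [he, Nat.add_sub_cancel, pow_succ]; ring
    calc 64 ^ e * (2 * u + 1) ^ 8 ≤ 64 ^ e * (256 * B) := Nat.mul_le_mul_left _ h1
      _ = 16384 * (64 ^ (e - 1) * B) := by rw [h2]; ring
      _ ≤ 16384 * 4 ^ u := Nat.mul_le_mul_left _ hlow
      _ = 4096 * 4 ^ (u + 1) := by ring
      _ ≤ u * 4 ^ (u + 1) := Nat.mul_le_mul_right _ hu
  have hst := stepj hb (δ := δ) (j := u) (ρ := u) (t := 64 ^ e) hδ1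
    (hδj u (by omega)) (by linarith) (by positivity)
    (by exact_mod_cast hlast)
    (by
      have h1 : (u : ℝ) ^ 8 ≤ ((2 * u + 1 : ℕ) : ℝ) ^ 8 := pow_le_pow_left₀ hu0.le hL 8
      refine le_trans ?_ h1
      have h2 : (32 : ℝ) ≤ (u : ℝ) ^ 6 := by
        calc (32 : ℝ) ≤ 4096 ^ 6 := by norm_num
          _ ≤ (u : ℝ) ^ 6 := pow_le_pow_left₀ (by norm_num) hur 6
      calc 32 * (u : ℝ) ^ 2 ≤ (u : ℝ) ^ 6 * (u : ℝ) ^ 2 :=
            mul_le_mul_of_nonneg_right h2 (by positivity)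
        _ = (u : ℝ) ^ 8 := by ring)
  -- the bias
  set d : ℝ := (B : ℝ) / (64 * 4 ^ u) with hd
  have hd0 : 0 ≤ d := by positivity
  have hd2 : d ≤ 1 / 2 := by
    rw [hd, div_le_iff₀ (by positivity)]
    have h1 : (B : ℝ) ≤ 4 ^ u := by exact_mod_cast hBq
    have h2 : (0 : ℝ) < 4 ^ u := by positivity
    linarith
  have h2u : (2 : ℕ) ^ (2 * u) = 4 ^ u := by rw [pow_mul]; norm_num
  have hn1' : 16 * 4 ^ u ≤ n := by
    rw [pow_add, h2u] at hn1; omega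
  have hn2' : n < 64 * 4 ^ u := by
    rw [pow_add, h2u] at hn2; omega
  have hp0 : 1 ≤ 4 ^ u := Nat.one_le_pow _ _ (by norm_num)
  have hbias := bias3 hb hd0 hd2 n (by omega) (fun m _ => hδ1 m) (fun m hm => by
    rw [mem_Ioc] at hm
    have hm1 : 2 ^ (2 * u) ≤ m := by rw [h2u]; omega
    have hm0 : 0 < m := by omega
    have hm0' : (0 : ℝ) < m := by exact_mod_cast hm0
    rw [hδj u (by omega) m hm1, hd]
    have hlog : 2 * u ≤ Nat.log 2 m := Nat.le_log_of_pow_le (by norm_num) hm1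
    have h1 : (B : ℝ) ≤ (Nat.log 2 m : ℝ) ^ 8 := by
      rw [hB]; exact_mod_cast Nat.pow_le_pow_left hlog 8
    have h2 : (m : ℝ) ≤ 64 * 4 ^ u := by
      have : m ≤ 64 * 4 ^ u := by omega
      exact_mod_cast this
    exact div_le_div₀ (by positivity) h1 hm0' h2) (W := 4 ^ (u + 1)) (by
      rw [pow_succ]; omega) (u * 64 ^ e)
  have hexp : (u : ℝ) / 32 ≤ 2 * d * (u * 64 ^ e) := by
    have h1 : (4 : ℝ) ^ u ≤ 64 ^ e * B := by exact_mod_cast hhigh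
    have h4 : (0 : ℝ) < 4 ^ u := by positivity
    have h2 : 2 * d * (u * 64 ^ e) = u / 32 * (64 ^ e * B / 4 ^ u) := by
      rw [hd]; field_simp; ring
    have h3 : 1 ≤ 64 ^ e * (B : ℝ) / 4 ^ u := by rwa [le_div_iff₀ h4, one_mul]
    rw [h2]
    nlinarith
  have hexp2 : Real.exp (-(2 * d * (u * 64 ^ e))) ≤ 24 * 32 ^ 4 / (u : ℝ) ^ 4 := by
    have h1 : Real.exp (-(2 * d * (u * 64 ^ e))) ≤ Real.exp (-((u : ℝ) / 32)) :=
      Real.exp_le_exp.2 (by linarith)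
    refine h1.trans ?_
    have h2 := Real.pow_div_factorial_le_exp ((u : ℝ) / 32) (by positivity) 4
    have h3 : ((Nat.factorial 4 : ℕ) : ℝ) = 24 := by norm_num [Nat.factorial]
    rw [h3] at h2
    rw [Real.exp_neg, inv_eq_one_div, div_le_div_iff₀ (Real.exp_pos _) (by positivity)]
    have h4 : ((u : ℝ) / 32) ^ 4 / 24 * (24 * 32 ^ 4) = (u : ℝ) ^ 4 := by
      field_simp
    nlinarith
  refine hbias.trans ?_
  have hu8 : (u : ℝ) ^ 8 ≤ ((2 * u + 1 : ℕ) : ℝ) ^ 8 := pow_le_pow_left₀ hu0.le hL 8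
  have t1 : 512 * 512 * (u : ℝ) ^ 4 / ((2 * u + 1 : ℕ) : ℝ) ^ 8 ≤ 512 * 512 / (u : ℝ) ^ 4 := by
    rw [div_le_div_iff₀ (by positivity) (by positivity)]
    nlinarith
  have t2 : (e : ℝ) * η ≤ 512 * 512 * 64 ^ 4 / (u : ℝ) ^ 4 := by
    have h1 : (e : ℝ) ≤ u := by exact_mod_cast (by omega : e ≤ u)
    have h2 : (e : ℝ) * η ≤ u * η := mul_le_mul_of_nonneg_right h1 hη0
    refine h2.trans ?_
    rw [hη, ← mul_div_assoc, div_le_div_iff₀ (by positivity) (by positivity)]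
    have h3 : (u : ℝ) ^ 5 ≤ (u : ℝ) ^ 8 := pow_le_pow_right₀ (by linarith) (by norm_num)
    nlinarith
  have hsum : (512 * 512 * 64 ^ 4 + 512 * 512 + 24 * 32 ^ 4) / (u : ℝ) ^ 4 =
      512 * 512 * 64 ^ 4 / (u : ℝ) ^ 4 + 512 * 512 / (u : ℝ) ^ 4 + 24 * 32 ^ 4 / (u : ℝ) ^ 4 := by
    ring
  rw [hsum]
  linarith

/-- The decay of the bias for logarithmically sparse sets. -/
theorem decayL : ∃ C : ℝ, 0 < C ∧ ∀ b : Set ℕ → ℕ → ZMod 2, Good b → ∀ δ : ℕ → ℝ,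
    (∀ m : ℕ, 0 ≤ δ m ∧ δ m ≤ 1 / 2) →
    (∀ m : ℕ, 2 ^ 64 ≤ m → δ m = (Nat.log 2 m : ℝ) ^ 8 / m) → ∀ n : ℕ, 1 ≤ n →
    |E δ (Icc 1 n) (fun S => sg (b (S : Set ℕ) n))| ≤ C / ((Nat.log 2 n : ℝ) + 1) ^ 4 := by
  set C₁ : ℝ := 512 * 512 * 64 ^ 4 + 512 * 512 + 24 * 32 ^ 4 with hC₁
  refine ⟨81 * C₁ + 10000 ^ 4, by positivity, fun b hb δ hδ1 hδ n hn => ?_⟩
  set k : ℕ := Nat.log 2 n with hk
  have hk0 : (0 : ℝ) ≤ k := Nat.cast_nonneg _
  rw [le_div_iff₀ (by positivity)]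
  rcases Nat.lt_or_ge k 9000 with h | h
  · have h1 : |E δ (Icc 1 n) (fun S => sg (b (S : Set ℕ) n))| ≤ 1 :=
      E_le_one n fun m _ => ⟨(hδ1 m).1, by linarith [(hδ1 m).2]⟩
    have h2 : (k : ℝ) + 1 ≤ 10000 := by
      have : (k : ℝ) < 9000 := by exact_mod_cast h
      linarith
    have h3 : ((k : ℝ) + 1) ^ 4 ≤ 10000 ^ 4 := pow_le_pow_left₀ (by positivity) h2 4
    have h4 : 0 ≤ 81 * C₁ := by positivity
    calc |E δ (Icc 1 n) (fun S => sg (b (S : Set ℕ) n))| * ((k : ℝ) + 1) ^ 4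
        ≤ 1 * 10000 ^ 4 := mul_le_mul h1 h3 (by positivity) (by norm_num)
      _ ≤ _ := by linarith
  · set u : ℕ := (k - 4) / 2 with hu
    have hn1 : 2 ^ k ≤ n := Nat.pow_log_le_self 2 (by omega)
    have hn2 : n < 2 ^ (k + 1) := Nat.lt_pow_succ_log_self (by norm_num) n
    have h1 := large hb hδ1 hδ (u := u) (n := n) (by omega)
      (le_trans (Nat.pow_le_pow_right (by norm_num) (by omega)) hn1)
      (lt_of_lt_of_le hn2 (Nat.pow_le_pow_right (by norm_num) (by omega)))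
    have hur : (4096 : ℝ) ≤ u := by exact_mod_cast (by omega : 4096 ≤ u)
    have hku : (k : ℝ) + 1 ≤ 3 * u := by exact_mod_cast (by omega : k + 1 ≤ 3 * u)
    have h3 : ((k : ℝ) + 1) ^ 4 ≤ (3 * (u : ℝ)) ^ 4 := pow_le_pow_left₀ (by positivity) hku 4
    have h4 : C₁ / (u : ℝ) ^ 4 * (3 * (u : ℝ)) ^ 4 = 81 * C₁ := by
      have : (u : ℝ) ≠ 0 := by linarith
      field_simp
      ring
    calc |E δ (Icc 1 n) (fun S => sg (b (S : Set ℕ) n))| * ((k : ℝ) + 1) ^ 4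
        ≤ C₁ / (u : ℝ) ^ 4 * (3 * (u : ℝ)) ^ 4 := mul_le_mul h1 h3 (by positivity) (by positivity)
      _ = 81 * C₁ := h4
      _ ≤ _ := by linarith [show (0 : ℝ) ≤ 10000 ^ 4 by norm_num]

end Pool.Agent.X149.PP.Lg
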