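import Mathlib
import Pool.Agent.X149.PP.Exist
import Pool.Agent.X149.PP.Lg.Decay

set_option autoImplicit false

namespace Pool.Agent.X149.PP.Lg

open Finset MeasureTheory ProbabilityTheory Filter
open scoped ENNReal

/-- The probabilities. -/
noncomputable def pl (m : ℕ) : ℝ := if 2 ^ 64 ≤ m then (Nat.log 2 m : ℝ) ^ 8 / m else 0

lemma pl_bound (m : ℕ) : 0 ≤ pl m ∧ pl m ≤ 1 / 2 := by
  unfold pl
  split_ifs with h
  · have hm0 : 0 < m := lt_of_lt_of_le (by positivity) h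
    have hm0' : (0 : ℝ) < m := by exact_mod_cast hm0
    refine ⟨by positivity, ?_⟩
    rw [div_le_iff₀ hm0']
    set c := Nat.log 2 m with hc
    have hc64 : 64 ≤ c := Nat.le_log_of_pow_le (by norm_num) h
    have h1 : 2 ^ c ≤ m := Nat.pow_log_le_self 2 (by omega)
    have h2 := pw (c / 2) (by omega)
    have h3 : c ^ 8 ≤ (2 * (c / 2) + 2) ^ 8 := Nat.pow_le_pow_left (by omega) 8
    have h4 : 4 ^ (c / 2) ≤ 2 ^ c := by
      have : (4 : ℕ) ^ (c / 2) = 2 ^ (2 * (c / 2)) := by rw [pow_mul]; norm_num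
      rw [this]
      exact Nat.pow_le_pow_right (by norm_num) (by omega)
    have h5 : 2 * c ^ 8 ≤ m := by omega
    have h6 : 2 * (c : ℝ) ^ 8 ≤ m := by exact_mod_cast h5
    linarith
  · norm_num

/-- Logarithmically sparse random sets. -/
theorem exists_log {Q : Set ℕ → Prop}
    (hQ : ∀ (Ω : Type) (_ : MeasurableSpace Ω) (P : Measure Ω) (_ : IsProbabilityMeasure P)
      (D : Ω → Set ℕ), (∀ m, MeasurableSet {ω | m ∈ D ω}) →
      iIndepSet (fun m => {ω | m ∈ D ω}) P →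
      (∀ m : ℕ, 1 ≤ m → P.real {ω | m ∈ D ω} ≤ 1 / 2) →
      (∀ m : ℕ, 2 ^ 64 ≤ m → (Nat.log 2 m : ℝ) ^ 8 / m ≤ P.real {ω | m ∈ D ω}) →
      ∀ᵐ ω ∂P, Q (D ω)) :
    ∃ D : Set ℕ, Q D ∧ ∃ C : ℝ, ∀ N : ℕ,
      (Nat.card {m : ℕ // m ∈ D ∧ 1 ≤ m ∧ m ≤ N} : ℝ) ≤ C * ((Nat.log 2 N : ℝ) + 1) ^ 10 := by
  classical
  have : ∀ m, IsProbabilityMeasure (coin (pl m)) := fun m =>
    coin_prob (pl_bound m).1 (by linarith [(pl_bound m).2])
  set P : Measure (ℕ → Bool) := Measure.infinitePi fun m => coin (pl m) with hP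
  set D : (ℕ → Bool) → Set ℕ := fun ω => {m | ω m = true} with hD
  have hpre : ∀ m, {ω | m ∈ D ω} = (fun ω : ℕ → Bool => ω m) ⁻¹' {true} := fun m => by
    ext ω; simp [hD]
  have hm : ∀ m, MeasurableSet {ω | m ∈ D ω} := fun m => by
    rw [hpre m]
    exact (measurable_pi_apply m) (measurableSet_singleton true)
  have hbox : ∀ S : Finset ℕ, P (⋂ m ∈ S, {ω | m ∈ D ω}) = ∏ m ∈ S, ENNReal.ofReal (pl m) := by
    intro S
    have h1 : (⋂ m ∈ S, {ω | m ∈ D ω}) = Set.pi (S : Set ℕ) fun _ => ({true} : Set Bool) := by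
      ext ω; simp [hD, Set.mem_pi]
    rw [h1, hP, Measure.infinitePi_pi]
    · exact prod_congr rfl fun m _ => coin_true _
    · exact fun m _ => measurableSet_singleton true
  have hone : ∀ m, P {ω | m ∈ D ω} = ENNReal.ofReal (pl m) := fun m => by
    have := hbox {m}
    simpa using this
  have hi : iIndepSet (fun m => {ω | m ∈ D ω}) P := by
    rw [iIndepSet_iff_meas_biInter hm]
    intro S
    rw [hbox S]
    exact prod_congr rfl fun m _ => (hone m).symm
  have hreal : ∀ m, P.real {ω | m ∈ D ω} = pl m := fun m => by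
    rw [Measure.real, hone m, ENNReal.toReal_ofReal (pl_bound m).1]
  have hae := hQ (ℕ → Bool) _ P inferInstance D hm hi
    (fun m _ => by rw [hreal m]; exact (pl_bound m).2)
    (fun m hm1 => by
      rw [hreal m]
      unfold pl
      rw [if_pos hm1])
  -- sparsity
  set w : ℕ → ℝ := fun i => 1 / ((i : ℝ) + 1) ^ 10 with hw
  have hw0 : ∀ i, 0 ≤ w i := fun i => by simp only [hw]; positivity
  set g : (ℕ → Bool) → ℝ≥0∞ := fun ω => ∑' i : ℕ, ∑ m ∈ Ico (2 ^ i) (2 ^ (i + 1)),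
    Set.indicator {ω | m ∈ D ω} (fun _ => ENNReal.ofReal (w i)) ω with hg
  have hmt : ∀ i, Measurable fun ω => ∑ m ∈ Ico (2 ^ i) (2 ^ (i + 1)),
      Set.indicator {ω | m ∈ D ω} (fun _ => ENNReal.ofReal (w i)) ω := fun i =>
    Finset.measurable_fun_sum _ fun m _ => measurable_const.indicator (hm m)
  have hgint : ∫⁻ ω, g ω ∂P < ∞ := by
    rw [hg, lintegral_tsum fun i => (hmt i).aemeasurable]
    have h1 : ∀ i : ℕ, ∫⁻ ω, ∑ m ∈ Ico (2 ^ i) (2 ^ (i + 1)),
        Set.indicator {ω | m ∈ D ω} (fun _ => ENNReal.ofReal (w i)) ω ∂P ≤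
        ENNReal.ofReal (((i : ℝ) + 1) ^ (-(2 : ℝ))) := by
      intro i
      have hi0 : (0 : ℝ) < (i : ℝ) + 1 := by positivity
      rw [lintegral_finsetSum _ fun m _ => measurable_const.indicator (hm m)]
      have h2 : ∀ m ∈ Ico (2 ^ i) (2 ^ (i + 1)), ∫⁻ ω, Set.indicator {ω | m ∈ D ω}
          (fun _ => ENNReal.ofReal (w i)) ω ∂P ≤
          ENNReal.ofReal (((i : ℝ) + 1) ^ (-(2 : ℝ)) / 2 ^ i) := by
        intro m hmi
        rw [mem_Ico] at hmi
        rw [lintegral_indicator_const (hm m), hone m, ← ENNReal.ofReal_mul (hw0 i)]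
        refine ENNReal.ofReal_le_ofReal ?_
        have h3 : pl m ≤ ((i : ℝ) + 1) ^ 8 / 2 ^ i := by
          unfold pl
          split_ifs with h
          · have hlog : Nat.log 2 m = i := (Nat.log_eq_iff (Or.inr ⟨by norm_num, by
              have := Nat.one_le_pow i 2 (by norm_num); omega⟩)).2 hmi
            rw [hlog]
            refine div_le_div₀ (by positivity) (pow_le_pow_left₀ (by positivity) (by linarith) 8)
              (by positivity) ?_
            exact_mod_cast hmi.1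
          · positivity
        calc w i * pl m ≤ w i * (((i : ℝ) + 1) ^ 8 / 2 ^ i) :=
              mul_le_mul_of_nonneg_left h3 (hw0 i)
          _ = ((i : ℝ) + 1) ^ (-(2 : ℝ)) / 2 ^ i := by
            simp only [hw]
            rw [Real.rpow_neg hi0.le, show (2 : ℝ) = ((2 : ℕ) : ℝ) by norm_num,
              Real.rpow_natCast]
            field_simp
      refine (sum_le_sum h2).trans ?_
      rw [sum_const, Nat.card_Ico, nsmul_eq_mul, show 2 ^ (i + 1) - 2 ^ i = 2 ^ i by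
        rw [pow_succ]; omega]
      rw [show ((2 ^ i : ℕ) : ℝ≥0∞) = ENNReal.ofReal ((2 : ℝ) ^ i) by
        rw [← ENNReal.ofReal_natCast]; push_cast; rfl, ← ENNReal.ofReal_mul (by positivity)]
      refine ENNReal.ofReal_le_ofReal (le_of_eq ?_)
      field_simp
    refine lt_of_le_of_lt (ENNReal.tsum_le_tsum h1) ?_
    have h2 : Summable fun i : ℕ => ((i : ℝ) + 1) ^ (-(2 : ℝ)) := by
      have h3 : Summable fun k : ℕ => ((k : ℝ)) ^ (-(2 : ℝ)) :=
        Real.summable_nat_rpow.2 (by norm_num)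
      refine ((summable_nat_add_iff 1).2 h3).congr fun k => ?_
      push_cast
      rfl
    exact lt_top_iff_ne_top.2 h2.tsum_ofReal_ne_top
  have hgm : Measurable g := Measurable.ennreal_tsum hmt
  obtain ⟨ω, hω1, hω2⟩ := (hae.and (ae_lt_top hgm hgint.ne)).exists
  refine ⟨D ω, hω1, (g ω).toReal, fun N => ?_⟩
  set F : Finset ℕ := (Icc 1 N).filter (· ∈ D ω) with hF
  have hcard : Nat.card {m : ℕ // m ∈ D ω ∧ 1 ≤ m ∧ m ≤ N} = F.card := by
    refine Nat.subtype_card F fun m => ?_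
    rw [hF, mem_filter, mem_Icc]
    exact ⟨fun h => ⟨h.2, h.1⟩, fun h => ⟨h.2, h.1⟩⟩
  rw [hcard]
  set I : ℕ := Nat.log 2 N with hI
  have hI0 : (0 : ℝ) < (I : ℝ) + 1 := by positivity
  have hmaps : ∀ m ∈ F, Nat.log 2 m ∈ range (I + 1) := by
    intro m hm'
    rw [hF, mem_filter, mem_Icc] at hm'
    rw [mem_range]
    have := Nat.log_mono_right (b := 2) hm'.1.2
    omega
  have h1 : ∑ m ∈ F, ENNReal.ofReal (w I) ≤ g ω := by
    rw [← sum_fiberwise_of_maps_to hmaps]
    refine le_trans (sum_le_sum fun i hi' => ?_) (ENNReal.sum_le_tsum (range (I + 1)))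
    rw [mem_range] at hi'
    have hwi : w I ≤ w i := by
      simp only [hw]
      refine one_div_le_one_div_of_le (by positivity) (pow_le_pow_left₀ (by positivity) ?_ 10)
      have : (i : ℝ) ≤ I := by exact_mod_cast (by omega : i ≤ I)
      linarith
    have hsub : (F.filter fun m => Nat.log 2 m = i) ⊆ Ico (2 ^ i) (2 ^ (i + 1)) := by
      intro m hm'
      rw [mem_filter, hF, mem_filter, mem_Icc] at hm'
      rw [mem_Ico]
      obtain ⟨⟨⟨h1, _⟩, _⟩, h2⟩ := hm'
      rw [← h2]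
      exact ⟨Nat.pow_log_le_self 2 (by omega), Nat.lt_pow_succ_log_self (by norm_num) m⟩
    refine le_trans (sum_le_sum fun m hm' => ?_)
      (sum_le_sum_of_subset (f := fun m => Set.indicator {ω | m ∈ D ω}
        (fun _ => ENNReal.ofReal (w i)) ω) hsub)
    rw [mem_filter, hF, mem_filter] at hm'
    rw [Set.indicator_of_mem (show ω ∈ {ω | m ∈ D ω} from hm'.1.2)]
    exact ENNReal.ofReal_le_ofReal hwi
  rw [sum_const, nsmul_eq_mul] at h1
  have h2 := ENNReal.toReal_mono hω2.ne h1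
  rw [ENNReal.toReal_mul, ENNReal.toReal_natCast, ENNReal.toReal_ofReal (hw0 I)] at h2
  have h3 : w I * ((I : ℝ) + 1) ^ 10 = 1 := by
    simp only [hw]; field_simp
  calc (F.card : ℝ) = (F.card * w I) * ((I : ℝ) + 1) ^ 10 := by rw [mul_assoc, h3, mul_one]
    _ ≤ _ := mul_le_mul_of_nonneg_right h2 (by positivity)

end Pool.Agent.X149.PP.Lg
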