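import Mathlib
import Pool.Agent.X149.PP.Lg.Decay

set_option autoImplicit false

namespace Pool.Agent.X149.PP.Lg

open Finset

/-- The decay of the bias, with lower bounds for the probabilities only. -/
theorem decayM : ∃ C : ℝ, 0 < C ∧ ∀ b : Set ℕ → ℕ → ZMod 2, Good b → ∀ δ : ℕ → ℝ,
    (∀ m : ℕ, 0 ≤ δ m) → (∀ m : ℕ, 1 ≤ m → δ m ≤ 1 / 2) →
    (∀ m : ℕ, 2 ^ 64 ≤ m → (Nat.log 2 m : ℝ) ^ 8 / m ≤ δ m) → ∀ n : ℕ, 1 ≤ n →
    |E δ (Icc 1 n) (fun S => sg (b (S : Set ℕ) n))| ≤ C / ((Nat.log 2 n : ℝ) + 1) ^ 4 := by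
  obtain ⟨C, hC, hdec⟩ := decayL
  refine ⟨C, hC, fun b hb δ hδ0 hδ1 hδ n hn => ?_⟩
  set d : ℕ → ℝ := fun m => if 2 ^ 64 ≤ m then (Nat.log 2 m : ℝ) ^ 8 / m else 0 with hd
  set v : ℕ → ℝ := fun m => (δ m - d m) / (1 - 2 * d m) with hv
  have hdle : ∀ m : ℕ, d m ≤ δ m := by
    intro m
    simp only [hd]
    split_ifs with h
    · exact hδ m h
    · exact hδ0 m
  have hd2 : ∀ m : ℕ, 0 ≤ d m ∧ d m ≤ 1 / 2 := by
    intro m
    constructor
    · simp only [hd]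
      split_ifs <;> positivity
    · rcases Nat.eq_zero_or_pos m with h | h
      · subst h
        simp [hd]
      · exact (hdle m).trans (hδ1 m h)
  have hmix : ∀ m ∈ Icc 1 n, δ m = v m * (1 - d m) + (1 - v m) * d m := by
    intro m hm
    have h1 := hd2 m
    have h2 := hδ1 m (mem_Icc.1 hm).1
    rcases eq_or_lt_of_le h1.2 with h3 | h3
    · have h4 : δ m = 1 / 2 := le_antisymm h2 (by rw [← h3]; exact hdle m)
      rw [h4, h3]; ring
    · have h4 : (1 : ℝ) - 2 * d m ≠ 0 := by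
        have : 0 < 1 - 2 * d m := by linarith
        exact this.ne'
      have h5 : v m * (1 - 2 * d m) = δ m - d m := by
        simp only [hv]; exact div_mul_cancel₀ _ h4
      linarith
  have hv2 : ∀ m ∈ Icc 1 n, 0 ≤ v m ∧ v m ≤ 1 := by
    intro m hm
    have h1 := hd2 m
    have h2 := hδ1 m (mem_Icc.1 hm).1
    have h2' := hdle m
    have h3 : 0 ≤ 1 - 2 * d m := by linarith
    refine ⟨div_nonneg (by linarith) h3, div_le_one_of_le₀ (by linarith) h3⟩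
  rw [E_mix (Icc 1 n) hmix, ← E_const v (Icc 1 n) (C / ((Nat.log 2 n : ℝ) + 1) ^ 4)]
  refine E_abs hv2 fun V _ => ?_
  have h1 := hdec _ (hb.mix (V : Set ℕ)) d hd2 (fun m hm => by
    simp only [hd]; rw [if_pos hm]) n hn
  simp only [coe_symmDiff]
  exact h1

end Pool.Agent.X149.PP.Lg
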