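import Mathlib
import Pool.Agent.X149.PP.Prob
import Pool.Agent.X149.PP.Lg.Mix

set_option autoImplicit false

namespace Pool.Agent.X149.PP.Lg

open Finset MeasureTheory ProbabilityTheory Filter
open scoped ENNReal

lemma four_le : ∀ x : ℕ, (1 + x) ^ 4 ≤ 41 * 2 ^ x := by
  intro x
  rcases Nat.lt_or_ge x 5 with h | h
  · interval_cases x <;> norm_num
  · induction x, h using Nat.le_induction with
    | base => norm_num
    | succ x hx ih =>
      have h1 : (1 + (x + 1)) * 6 ≤ 7 * (1 + x) := by omega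
      have h2 := Nat.pow_le_pow_left h1 4
      rw [mul_pow, mul_pow] at h2
      have h3 : (7 : ℕ) ^ 4 ≤ 2 * 6 ^ 4 := by norm_num
      have h4 : (1 + (x + 1)) ^ 4 * 6 ^ 4 ≤ 2 * (1 + x) ^ 4 * 6 ^ 4 := by
        calc (1 + (x + 1)) ^ 4 * 6 ^ 4 ≤ 7 ^ 4 * (1 + x) ^ 4 := h2
          _ ≤ (2 * 6 ^ 4) * (1 + x) ^ 4 := Nat.mul_le_mul_right _ h3
          _ = 2 * (1 + x) ^ 4 * 6 ^ 4 := by ring
      have h5 : (1 + (x + 1)) ^ 4 ≤ 2 * (1 + x) ^ 4 :=
        Nat.le_of_mul_le_mul_right h4 (by norm_num)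
      calc (1 + (x + 1)) ^ 4 ≤ 2 * (1 + x) ^ 4 := h5
        _ ≤ 2 * (41 * 2 ^ x) := Nat.mul_le_mul_left _ ih
        _ = 41 * 2 ^ (x + 1) := by ring

/-- The logarithm. -/
noncomputable def el (K : ℕ) : ℝ := (Nat.log 2 K : ℝ) + 1

lemma el_pos (K : ℕ) : 0 < el K := by unfold el; positivity

lemma el_one_le (K : ℕ) : 1 ≤ el K := by
  unfold el
  linarith [(Nat.cast_nonneg (Nat.log 2 K) : (0 : ℝ) ≤ _)]

lemma el_mono {k K : ℕ} (h : k ≤ K) : el k ≤ el K := by
  unfold el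
  have : (Nat.log 2 k : ℝ) ≤ Nat.log 2 K := by exact_mod_cast Nat.log_mono_right h
  linarith

lemma ratio {k K : ℕ} (hk : 1 ≤ k) (h : k ≤ K) :
    (k : ℝ) / el k ^ 4 ≤ 82 * K / el K ^ 4 := by
  rw [div_le_div_iff₀ (pow_pos (el_pos k) 4) (pow_pos (el_pos K) 4)]
  unfold el
  set a := Nat.log 2 k with ha
  set c := Nat.log 2 K with hc
  have hac : a ≤ c := Nat.log_mono_right h
  obtain ⟨x, hx⟩ := Nat.exists_eq_add_of_le hac
  have h1 : c + 1 ≤ (a + 1) * (1 + x) := by rw [hx]; nlinarith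
  have h2 : (c + 1) ^ 4 ≤ (a + 1) ^ 4 * (41 * 2 ^ x) := by
    calc (c + 1) ^ 4 ≤ ((a + 1) * (1 + x)) ^ 4 := Nat.pow_le_pow_left h1 4
      _ = (a + 1) ^ 4 * (1 + x) ^ 4 := by ring
      _ ≤ _ := Nat.mul_le_mul_left _ (four_le x)
  have h3 : 2 ^ c ≤ K := Nat.pow_log_le_self 2 (by omega)
  have h4 : k < 2 ^ (a + 1) := Nat.lt_pow_succ_log_self (by norm_num) k
  have h5 : k * 2 ^ x ≤ 2 * K := by
    calc k * 2 ^ x ≤ 2 ^ (a + 1) * 2 ^ x := Nat.mul_le_mul_right _ h4.le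
      _ = 2 * 2 ^ c := by rw [hx, pow_add, pow_succ]; ring
      _ ≤ 2 * K := Nat.mul_le_mul_left _ h3
  have h6 : k * (c + 1) ^ 4 ≤ 82 * K * (a + 1) ^ 4 := by
    calc k * (c + 1) ^ 4 ≤ k * ((a + 1) ^ 4 * (41 * 2 ^ x)) := Nat.mul_le_mul_left _ h2
      _ = 41 * (a + 1) ^ 4 * (k * 2 ^ x) := by ring
      _ ≤ 41 * (a + 1) ^ 4 * (2 * K) := Nat.mul_le_mul_left _ h5
      _ = 82 * K * (a + 1) ^ 4 := by ring
  exact_mod_cast h6

variable {Ω : Type*} [MeasurableSpace Ω] {P : Measure Ω} [IsProbabilityMeasure P]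
  {D : Ω → Set ℕ} (hDm : ∀ m, MeasurableSet {ω | m ∈ D ω})

include hDm in
lemma meansqL {C : ℝ} (hC : 0 < C)
    (hbias : ∀ b : Set ℕ → ℕ → ZMod 2, Good b → Dep b → ∀ n : ℕ, 1 ≤ n →
      |∫ ω, sg (b (D ω) n) ∂P| ≤ C / el n ^ 4)
    {b : Set ℕ → ℕ → ZMod 2} (hb : Good b) (hdep : Dep b) {ν : ℕ → ℕ}
    (hν : StrictMono ν) (N : ℕ) (hN : 1 ≤ N) : ∫ ω, SS b D ν N ω ^ 2 ∂P ≤
      (82 + 164 * C) * N ^ 2 / el N ^ 4 := by
  have hsm : ∀ n, Measurable fun ω => sg (b (D ω) n) := fun n => sg_meas hDm hdep n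
  have hSm : ∀ K, Measurable fun ω => SS b D ν K ω := fun K => by
    unfold SS; exact Finset.measurable_fun_sum _ fun k _ => hsm _
  have hN4 : 0 < el N ^ 4 := pow_pos (el_pos N) 4
  have key : ∀ K ≤ N, ∫ ω, SS b D ν K ω ^ 2 ∂P ≤ K * (1 + 2 * (C * (82 * N / el N ^ 4))) := by
    intro K
    induction K with
    | zero =>
      intro _
      simp [SS]
    | succ K ih =>
      intro hKN
      have ih' := ih (by omega)
      have h1 : ∀ ω, SS b D ν (K + 1) ω ^ 2 = SS b D ν K ω ^ 2 +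
          2 * (∑ k ∈ range K, sg (b (D ω) (ν k)) * sg (b (D ω) (ν K))) + 1 := by
        intro ω
        rw [SS_succ]
        have h2 : sg (b (D ω) (ν K)) ^ 2 = 1 := by
          rw [← sq_abs, sg_abs]; norm_num
        rw [← sum_mul]
        change (SS b D ν K ω + _) ^ 2 = _ + 2 * (SS b D ν K ω * _) + 1
        nlinarith
      have hi1 : Integrable (fun ω => SS b D ν K ω ^ 2) P := by
        refine Integrable.of_bound ((hSm K).pow_const 2).aestronglyMeasurable ((K : ℝ) ^ 2)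
          (Eventually.of_forall fun ω => ?_)
        rw [Real.norm_eq_abs, abs_pow]
        exact pow_le_pow_left₀ (abs_nonneg _) (SS_abs _ _ _ _ _) 2
      have hi2 : ∀ k, Integrable (fun ω => sg (b (D ω) (ν k)) * sg (b (D ω) (ν K))) P := by
        intro k
        refine Integrable.of_bound ((hsm _).mul (hsm _)).aestronglyMeasurable 1
          (Eventually.of_forall fun ω => ?_)
        rw [Real.norm_eq_abs, abs_mul, sg_abs, sg_abs, one_mul]
      have hpair : ∀ k ∈ range K, ∫ ω, sg (b (D ω) (ν k)) * sg (b (D ω) (ν K)) ∂P ≤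
          C / el (ν K) ^ 4 := by
        intro k hk
        rw [mem_range] at hk
        have hlt := hν hk
        have hg := hb.shift (T := {0, ν K - ν k}) (by simp)
        have hd := hdep.shift {0, ν K - ν k}
        have h3 : ∀ ω, sg (b (D ω) (ν k)) * sg (b (D ω) (ν K)) =
            sg (shift b {0, ν K - ν k} (D ω) (ν K)) := by
          intro ω
          unfold shift
          rw [sum_pair (by omega), if_pos (by omega), if_pos (by omega), sg_add, Nat.sub_zero,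
            show ν K - (ν K - ν k) = ν k by omega, mul_comm]
        simp only [h3]
        exact (le_abs_self _).trans (hbias _ hg hd (ν K) (by omega))
      simp only [h1]
      rw [integral_add _ (integrable_const _), integral_add hi1 _, integral_const_mul,
        integral_finsetSum _ fun k _ => hi2 k]
      · have h4 : ∑ k ∈ range K, ∫ ω, sg (b (D ω) (ν k)) * sg (b (D ω) (ν K)) ∂P ≤
            C * (82 * N / el N ^ 4) := by
          refine (sum_le_sum hpair).trans ?_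
          rw [sum_const, card_range, nsmul_eq_mul]
          rcases Nat.eq_zero_or_pos K with h | h
          · subst h
            simp only [Nat.cast_zero, zero_mul]
            positivity
          · have hK : K ≤ ν K := hν.id_le K
            have h6 : el K ^ 4 ≤ el (ν K) ^ 4 := pow_le_pow_left₀ (el_pos K).le (el_mono hK) 4
            have h7 : C / el (ν K) ^ 4 ≤ C / el K ^ 4 :=
              div_le_div_of_nonneg_left hC.le (pow_pos (el_pos K) 4) h6
            have h8 := ratio (k := K) (K := N) h (by omega)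
            calc (K : ℝ) * (C / el (ν K) ^ 4) ≤ K * (C / el K ^ 4) :=
                  mul_le_mul_of_nonneg_left h7 (Nat.cast_nonneg _)
              _ = C * (K / el K ^ 4) := by ring
              _ ≤ _ := mul_le_mul_of_nonneg_left h8 hC.le
        simp only [integral_const, probReal_univ, smul_eq_mul, one_mul]
        push_cast
        linarith
      · exact (integrable_finsetSum _ fun k _ => hi2 k).const_mul 2
      · exact hi1.add ((integrable_finsetSum _ fun k _ => hi2 k).const_mul 2)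
  refine (key N le_rfl).trans ?_
  have h1 := ratio (k := 1) (K := N) le_rfl hN
  have h2 : el 1 = 1 := by unfold el; simp
  rw [h2] at h1
  norm_num at h1
  have h3 : (0 : ℝ) ≤ N := Nat.cast_nonneg _
  calc (N : ℝ) * (1 + 2 * (C * (82 * N / el N ^ 4)))
      ≤ N * (82 * N / el N ^ 4 + 2 * (C * (82 * N / el N ^ 4))) :=
        mul_le_mul_of_nonneg_left (by linarith) h3
    _ = _ := by ring

/-- The points of the subsequence. -/
def pt2 (i s : ℕ) : ℕ := 2 ^ i + 2 ^ i * s / (i + 1)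

lemma pt2_bound {i s : ℕ} (hs : s < i + 1) : 2 ^ i ≤ pt2 i s ∧ pt2 i s ≤ 2 ^ (i + 1) := by
  unfold pt2
  refine ⟨Nat.le_add_right _ _, ?_⟩
  have h1 : 2 ^ i * s / (i + 1) ≤ 2 ^ i := by
    refine Nat.div_le_of_le_mul ?_
    rw [mul_comm (i + 1)]
    exact Nat.mul_le_mul_left _ hs.le
  rw [pow_succ]; omega

include hDm in
theorem almost_sureL {C : ℝ} (hC : 0 < C)
    (hbias : ∀ b : Set ℕ → ℕ → ZMod 2, Good b → Dep b → ∀ n : ℕ, 1 ≤ n →
      |∫ ω, sg (b (D ω) n) ∂P| ≤ C / el n ^ 4)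
    {b : Set ℕ → ℕ → ZMod 2} (hb : Good b) (hdep : Dep b) {ν : ℕ → ℕ}
    (hν : StrictMono ν) : ∀ᵐ ω ∂P, ∃ C : ℝ, ∀ K : ℕ,
      |SS b D ν K ω| ≤ C * (K / Real.sqrt (el K)) := by
  have hms := meansqL hDm hC hbias hb hdep hν
  have hsm : ∀ n, Measurable fun ω => sg (b (D ω) n) := fun n => sg_meas hDm hdep n
  have hSm : ∀ K, Measurable fun ω => SS b D ν K ω := fun K => by
    unfold SS; exact Finset.measurable_fun_sum _ fun k _ => hsm _
  have hi1 : ∀ K, Integrable (fun ω => SS b D ν K ω ^ 2) P := by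
    intro K
    refine Integrable.of_bound ((hSm K).pow_const 2).aestronglyMeasurable ((K : ℝ) ^ 2)
      (Eventually.of_forall fun ω => ?_)
    rw [Real.norm_eq_abs, abs_pow]
    exact pow_le_pow_left₀ (abs_nonneg _) (SS_abs _ _ _ _ _) 2
  set C' : ℝ := 82 + 164 * C with hC'
  have hC'0 : 0 < C' := by rw [hC']; positivity
  set w : ℕ → ℝ := fun i => ((i : ℝ) + 1) / 4 ^ i with hw
  have hw0 : ∀ i, 0 < w i := fun i => by simp only [hw]; positivity
  set g : Ω → ℝ≥0∞ := fun ω => ∑' i : ℕ, ∑ s ∈ range (i + 1),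
    ENNReal.ofReal (SS b D ν (pt2 i s) ω ^ 2 * w i) with hg
  have hmt : ∀ i s, Measurable fun ω => ENNReal.ofReal (SS b D ν (pt2 i s) ω ^ 2 * w i) :=
    fun i s => (((hSm _).pow_const 2).mul_const _).ennreal_ofReal
  have hms2 : ∀ i, Measurable fun ω => ∑ s ∈ range (i + 1),
      ENNReal.ofReal (SS b D ν (pt2 i s) ω ^ 2 * w i) := fun i =>
    Finset.measurable_fun_sum _ fun s _ => hmt i s
  have hgm : Measurable g := Measurable.ennreal_tsum hms2
  have hgint : ∫⁻ ω, g ω ∂P < ∞ := by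
    rw [hg, lintegral_tsum fun i => (hms2 i).aemeasurable]
    have h1 : ∀ i : ℕ, ∫⁻ ω, ∑ s ∈ range (i + 1),
        ENNReal.ofReal (SS b D ν (pt2 i s) ω ^ 2 * w i) ∂P ≤
        ENNReal.ofReal (4 * C' * ((i : ℝ) + 1) ^ (-(2 : ℝ))) := by
      intro i
      rw [lintegral_finsetSum _ fun s _ => hmt i s]
      have h2 : ∀ s ∈ range (i + 1), ∫⁻ ω, ENNReal.ofReal (SS b D ν (pt2 i s) ω ^ 2 * w i) ∂P ≤
          ENNReal.ofReal (4 * C' * ((i : ℝ) + 1) ^ (-(2 : ℝ)) / ((i : ℝ) + 1)) := by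
        intro s hs
        rw [mem_range] at hs
        rw [← ofReal_integral_eq_lintegral_ofReal ((hi1 _).mul_const _)
          (Eventually.of_forall fun ω => mul_nonneg (sq_nonneg _) (hw0 i).le)]
        refine ENNReal.ofReal_le_ofReal ?_
        rw [integral_mul_const]
        have hb1 := pt2_bound hs
        have hp1 : 1 ≤ pt2 i s := le_trans (Nat.one_le_pow _ _ (by norm_num)) hb1.1
        have h3 := hms (pt2 i s) hp1
        have hi0 : (0 : ℝ) < (i : ℝ) + 1 := by positivity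
        have h4 : (i : ℝ) + 1 ≤ el (pt2 i s) := by
          unfold el
          have : i ≤ Nat.log 2 (pt2 i s) := Nat.le_log_of_pow_le (by norm_num) hb1.1
          have : (i : ℝ) ≤ Nat.log 2 (pt2 i s) := by exact_mod_cast this
          linarith
        have h5 : (pt2 i s : ℝ) ^ 2 ≤ 4 * 4 ^ i := by
          have h6 : (pt2 i s : ℝ) ≤ 2 ^ (i + 1) := by exact_mod_cast hb1.2
          calc (pt2 i s : ℝ) ^ 2 ≤ (2 ^ (i + 1)) ^ 2 := pow_le_pow_left₀ (Nat.cast_nonneg _) h6 2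
            _ = 4 * 4 ^ i := by
              rw [← pow_mul, mul_comm (i + 1) 2, pow_mul, pow_succ]; norm_num; ring
        have h6 : (82 + 164 * C) * (pt2 i s : ℝ) ^ 2 / el (pt2 i s) ^ 4 ≤
            C' * (4 * 4 ^ i) / ((i : ℝ) + 1) ^ 4 := by
          refine div_le_div₀ (by positivity) (mul_le_mul_of_nonneg_left h5 hC'0.le)
            (by positivity) (pow_le_pow_left₀ hi0.le h4 4)
        have h7 : C' * (4 * 4 ^ i) / ((i : ℝ) + 1) ^ 4 * w i =
            4 * C' * ((i : ℝ) + 1) ^ (-(2 : ℝ)) / ((i : ℝ) + 1) := by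
          simp only [hw]
          rw [Real.rpow_neg hi0.le, show (2 : ℝ) = ((2 : ℕ) : ℝ) by norm_num, Real.rpow_natCast]
          have h8 : (4 : ℝ) ^ i ≠ 0 := by positivity
          field_simp
        rw [← h7]
        exact mul_le_mul_of_nonneg_right (h3.trans h6) (hw0 i).le
      refine (sum_le_sum h2).trans ?_
      rw [sum_const, card_range, nsmul_eq_mul]
      have hi0 : (0 : ℝ) < (i : ℝ) + 1 := by positivity
      rw [show ((i + 1 : ℕ) : ℝ≥0∞) = ENNReal.ofReal ((i : ℝ) + 1) by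
        rw [← ENNReal.ofReal_natCast]; push_cast; rfl, ← ENNReal.ofReal_mul hi0.le]
      refine ENNReal.ofReal_le_ofReal (le_of_eq ?_)
      field_simp
    refine lt_of_le_of_lt (ENNReal.tsum_le_tsum h1) ?_
    have h2 : Summable fun i : ℕ => 4 * C' * ((i : ℝ) + 1) ^ (-(2 : ℝ)) := by
      refine Summable.mul_left _ ?_
      have h3 : Summable fun k : ℕ => ((k : ℝ)) ^ (-(2 : ℝ)) :=
        Real.summable_nat_rpow.2 (by norm_num)
      refine ((summable_nat_add_iff 1).2 h3).congr fun k => ?_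
      push_cast
      rfl
    exact lt_top_iff_ne_top.2 h2.tsum_ofReal_ne_top
  filter_upwards [ae_lt_top hgm hgint.ne] with ω hω
  set G : ℝ := (g ω).toReal with hG
  have hG0 : 0 ≤ G := ENNReal.toReal_nonneg
  refine ⟨Real.sqrt G + 2, fun K => ?_⟩
  rcases Nat.eq_zero_or_pos K with hK | hK
  · subst hK
    simp [SS]
  set i : ℕ := Nat.log 2 K with hi
  have hK1 : 2 ^ i ≤ K := Nat.pow_log_le_self 2 (by omega)
  have hK2 : K < 2 ^ (i + 1) := Nat.lt_pow_succ_log_self (by norm_num) K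
  have hel : el K = (i : ℝ) + 1 := by unfold el; rw [← hi]
  have hi0 : (0 : ℝ) < (i : ℝ) + 1 := by positivity
  have hi1' : (1 : ℝ) ≤ (i : ℝ) + 1 := by linarith [(Nat.cast_nonneg i : (0 : ℝ) ≤ i)]
  obtain ⟨r, hr⟩ := Nat.exists_eq_add_of_le hK1
  have hr2 : r < 2 ^ i := by rw [pow_succ] at hK2; omega
  set s : ℕ := r * (i + 1) / 2 ^ i with hs
  have hp2 : 0 < 2 ^ i := by positivity
  have hs1 : s < i + 1 := by
    rw [hs, Nat.div_lt_iff_lt_mul hp2, mul_comm (i + 1)]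
    exact Nat.mul_lt_mul_of_pos_right hr2 (by omega)
  have hs2 : s * 2 ^ i ≤ r * (i + 1) := Nat.div_mul_le_self _ _
  have hs3 : r * (i + 1) < 2 ^ i * (s + 1) := Nat.lt_mul_div_succ _ hp2
  have hq1 : 2 ^ i * s / (i + 1) ≤ r := by
    refine Nat.div_le_of_le_mul ?_
    linarith [mul_comm (2 ^ i) s, mul_comm r (i + 1)]
  have hq2 : 2 ^ i * s < (i + 1) * (2 ^ i * s / (i + 1) + 1) := Nat.lt_mul_div_succ _ (by omega)
  set c : ℕ := 2 ^ i * s / (i + 1) with hc
  obtain ⟨L, hL⟩ := Nat.exists_eq_add_of_le hq1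
  have hpt : pt2 i s = 2 ^ i + c := rfl
  have hKL : K = pt2 i s + L := by rw [hpt]; omega
  have h3 := SS_diff b D ν (pt2 i s) L ω
  rw [← hKL] at h3
  have hterm : SS b D ν (pt2 i s) ω ^ 2 * w i ≤ G := by
    have h5 : ENNReal.ofReal (SS b D ν (pt2 i s) ω ^ 2 * w i) ≤ g ω := by
      refine le_trans ?_ (ENNReal.le_tsum i)
      exact Finset.single_le_sum (f := fun s => ENNReal.ofReal (SS b D ν (pt2 i s) ω ^ 2 * w i))
        (fun _ _ => bot_le) (mem_range.2 hs1)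
    have h6 := ENNReal.toReal_mono hω.ne h5
    rwa [ENNReal.toReal_ofReal (mul_nonneg (sq_nonneg _) (hw0 i).le)] at h6
  have hsq0 : 0 < Real.sqrt ((i : ℝ) + 1) := Real.sqrt_pos.2 hi0
  have h5 : |SS b D ν (pt2 i s) ω| ≤ Real.sqrt G * (2 ^ i / Real.sqrt ((i : ℝ) + 1)) := by
    refine abs_le_of_sq_le_sq ?_ (by positivity)
    rw [mul_pow, Real.sq_sqrt hG0, div_pow, Real.sq_sqrt hi0.le]
    have h6 : SS b D ν (pt2 i s) ω ^ 2 = (SS b D ν (pt2 i s) ω ^ 2 * w i) *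
        ((2 ^ i) ^ 2 / ((i : ℝ) + 1)) := by
      simp only [hw]
      have h7 : ((2 : ℝ) ^ i) ^ 2 = 4 ^ i := by rw [← pow_mul, mul_comm, pow_mul]; norm_num
      rw [h7]
      have h8 : (4 : ℝ) ^ i ≠ 0 := by positivity
      field_simp
    rw [h6]
    exact mul_le_mul_of_nonneg_right hterm (by positivity)
  have h2i : (i : ℝ) + 1 ≤ 2 ^ i := by
    have : i + 1 ≤ 2 ^ i := Nat.lt_two_pow_self
    exact_mod_cast this
  have hsq1 : Real.sqrt ((i : ℝ) + 1) ≤ (i : ℝ) + 1 := by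
    rw [Real.sqrt_le_left hi0.le]; nlinarith
  have h6 : (L : ℝ) ≤ 2 ^ i / ((i : ℝ) + 1) + 1 := by
    -- r (i+1) < 2^i (s+1), 2^i s < (i+1)(c+1), r = c + L
    have e1 : (r : ℝ) * ((i : ℝ) + 1) < 2 ^ i * ((s : ℝ) + 1) := by exact_mod_cast hs3
    have e2 : (2 : ℝ) ^ i * s < ((i : ℝ) + 1) * ((c : ℝ) + 1) := by exact_mod_cast hq2
    have e3 : (r : ℝ) = c + L := by exact_mod_cast hL
    rw [e3] at e1
    have e4 : (L : ℝ) * ((i : ℝ) + 1) ≤ (2 ^ i / ((i : ℝ) + 1) + 1) * ((i : ℝ) + 1) := by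
      have e5 : (2 ^ i / ((i : ℝ) + 1) + 1) * ((i : ℝ) + 1) = 2 ^ i + ((i : ℝ) + 1) := by
        field_simp
      rw [e5]
      nlinarith
    exact le_of_mul_le_mul_right e4 hi0
  have h7 : (2 : ℝ) ^ i / ((i : ℝ) + 1) ≤ 2 ^ i / Real.sqrt ((i : ℝ) + 1) :=
    div_le_div_of_nonneg_left (by positivity) hsq0 hsq1
  have h8 : (1 : ℝ) ≤ 2 ^ i / Real.sqrt ((i : ℝ) + 1) := by
    rw [le_div_iff₀ hsq0, one_mul]; exact hsq1.trans h2i
  have h9 : (2 : ℝ) ^ i / Real.sqrt ((i : ℝ) + 1) ≤ K / Real.sqrt (el K) := by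
    rw [hel]
    exact div_le_div_of_nonneg_right (by exact_mod_cast hK1) hsq0.le
  calc |SS b D ν K ω| ≤ |SS b D ν (pt2 i s) ω| + L := h3
    _ ≤ Real.sqrt G * (2 ^ i / Real.sqrt ((i : ℝ) + 1)) +
        (2 ^ i / Real.sqrt ((i : ℝ) + 1) + 2 ^ i / Real.sqrt ((i : ℝ) + 1)) := by linarith
    _ = (Real.sqrt G + 2) * (2 ^ i / Real.sqrt ((i : ℝ) + 1)) := by ring
    _ ≤ _ := mul_le_mul_of_nonneg_left h9 (by positivity)

end Pool.Agent.X149.PP.Lg
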