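import Mathlib
import Pool.Agent.X149.PP.Main3
import Pool.Agent.X149.PP.Lg.Sure

set_option autoImplicit false

namespace Pool.Agent.X149.PP.Lg

open Finset MeasureTheory ProbabilityTheory Filter
open scoped ENNReal

universe u

/-- The hypotheses on the random set. -/
structure RandomSet {Ω : Type u} [MeasurableSpace Ω] (P : Measure Ω) (D : Ω → Set ℕ) :
    Prop where
  meas : ∀ m, MeasurableSet {ω | m ∈ D ω}
  indep : iIndepSet (fun m => {ω | m ∈ D ω}) P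
  half : ∀ m : ℕ, 1 ≤ m → P.real {ω | m ∈ D ω} ≤ 1 / 2
  prob : ∀ m : ℕ, 2 ^ 64 ≤ m → (Nat.log 2 m : ℝ) ^ 8 / m ≤ P.real {ω | m ∈ D ω}

/-- The error term. -/
noncomputable def er (K : ℕ) : ℝ := K / Real.sqrt ((Nat.log 2 K : ℝ) + 1)

lemma er_nonneg (K : ℕ) : 0 ≤ er K := by unfold er; positivity

theorem sums {Ω : Type u} [MeasurableSpace Ω] {P : Measure Ω} [IsProbabilityMeasure P]
    {D : Ω → Set ℕ} (hD : RandomSet P D) {b : Set ℕ → ℕ → ZMod 2} (hb : Good b) (hdep : Dep b)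
    {ν : ℕ → ℕ} (hν : StrictMono ν) : ∀ᵐ ω ∂P, ∃ C : ℝ, ∀ K : ℕ,
        |SS b D ν K ω| ≤ C * er K := by
  obtain ⟨C, hC, hdec⟩ := decayM
  refine almost_sureL hD.meas hC ?_ hb hdep hν
  intro b hb hdep n hn
  rw [integral_sg hD.meas hD.indep hdep n]
  exact hdec b hb _ (fun m => measureReal_nonneg) hD.half hD.prob n hn

/-- All products of signs at shifted positions cancel. -/
theorem products3 {Ω : Type u} [MeasurableSpace Ω] {P : Measure Ω}
    [IsProbabilityMeasure P] {D : Ω → Set ℕ} (hD : RandomSet P D)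
    {b : Set ℕ → ℕ → ZMod 2} (hb : Good b) (hdep : Dep b) {ν : ℕ → ℕ}
    (hν : StrictMono ν) : ∀ᵐ ω ∂P, ∀ H : Finset ℕ, H.Nonempty → ∃ C : ℝ, ∀ K : ℕ,
      |∑ k ∈ range K, ∏ h ∈ H, sg (b (D ω) (ν k + h))| ≤ C * er K := by
  rw [ae_all_iff]
  intro H
  by_cases hH : H.Nonempty
  · have hg := hb.shift (T := H.image fun h => H.max' hH - h) (by
      rw [mem_image]
      exact ⟨H.max' hH, H.max'_mem hH, by omega⟩)
    have hd := hdep.shift (H.image fun h => H.max' hH - h)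
    have hν' : StrictMono fun k => ν k + H.max' hH := fun i j hij => by
      have := hν hij
      simp only
      omega
    filter_upwards [sums hD hg hd hν'] with ω hω
    intro _
    obtain ⟨C, hC⟩ := hω
    refine ⟨C, fun K => ?_⟩
    have h1 := hC K
    unfold SS at h1
    simp only [shift_eq b hH] at h1
    exact h1
  · exact Eventually.of_forall fun ω h => absurd h hH

/-- From products of signs to patterns. -/
lemma pattern3 {e : ℕ → ℝ} (he : ∀ K, 0 ≤ e K) {a : ℕ → ℕ} {ν : ℕ → ℕ} (h : ∀ H : Finset ℕ, H.Nonempty → ∃ C : ℝ, ∀ K : ℕ,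
      |∑ k ∈ range K, ∏ h ∈ H, sg ((a (ν k + h) : ℕ) : ZMod 2)| ≤ C * e K)
    (H O : Finset ℕ) : ∃ C : ℝ, ∀ K : ℕ,
      |(((range K).filter fun k => ∀ h ∈ H, (Odd (a (ν k + h)) ↔ h ∈ O)).card : ℝ) -
        K / 2 ^ H.card| ≤ C * e K := by
  classical
  choose! C hC using h
  set s : ℕ → ℝ := fun h => if h ∈ O then -1 else 1 with hs
  have hcount : ∀ K : ℕ, (((range K).filter fun k => ∀ h ∈ H, (Odd (a (ν k + h)) ↔ h ∈ O)).card : ℝ) =
      (1 / 2 ^ H.card) * ∑ T ∈ H.powerset, (∏ h ∈ T, s h) *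
        ∑ k ∈ range K, ∏ h ∈ T, sg ((a (ν k + h) : ℕ) : ZMod 2) := by
    intro K
    rw [card_filter, Nat.cast_sum]
    have h1 : ∀ k, (((if ∀ h ∈ H, (Odd (a (ν k + h)) ↔ h ∈ O) then 1 else 0 : ℕ)) : ℝ) =
        ∏ h ∈ H, ((1 + s h * sg ((a (ν k + h) : ℕ) : ZMod 2)) / 2) := by
      intro k
      have h2 : ∀ h, (1 + s h * sg ((a (ν k + h) : ℕ) : ZMod 2)) / 2 =
          if (Odd (a (ν k + h)) ↔ h ∈ O) then 1 else 0 := by
        intro h
        rw [sg_cast]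
        simp only [hs]
        by_cases h3 : h ∈ O <;> by_cases h4 : Odd (a (ν k + h)) <;> simp [h3, h4]
      simp only [h2]
      by_cases h3 : ∀ h ∈ H, (Odd (a (ν k + h)) ↔ h ∈ O)
      · rw [if_pos h3, prod_congr rfl fun h hh => if_pos (h3 h hh)]
        simp
      · rw [if_neg h3]
        push Not at h3
        obtain ⟨h, hh, hne⟩ := h3
        symm
        rw [Nat.cast_zero]
        refine prod_eq_zero hh (if_neg ?_)
        intro hiff
        rcases hne with ⟨h5, h6⟩ | ⟨h5, h6⟩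
        · exact h6 (hiff.1 h5)
        · exact h5 (hiff.2 h6)
    simp only [h1]
    have h2 : ∀ k, ∏ h ∈ H, ((1 + s h * sg ((a (ν k + h) : ℕ) : ZMod 2)) / 2) =
        (1 / 2 ^ H.card) * ∑ T ∈ H.powerset, (∏ h ∈ T, s h) *
          ∏ h ∈ T, sg ((a (ν k + h) : ℕ) : ZMod 2) := by
      intro k
      rw [prod_div_distrib, prod_const, prod_one_add]
      simp only [prod_mul_distrib]
      ring
    simp only [h2]
    rw [← mul_sum, sum_comm]
    congr 1
    refine sum_congr rfl fun T _ => ?_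
    rw [mul_sum]
  refine ⟨∑ T ∈ H.powerset, |C T|, fun K => ?_⟩
  rw [hcount K, ← sum_erase_add _ _ (empty_mem_powerset H)]
  simp only [prod_empty, sum_const, card_range, nsmul_eq_mul, mul_one, one_mul]
  have h1 : 1 / 2 ^ H.card * (∑ T ∈ H.powerset.erase ∅, (∏ h ∈ T, s h) *
      ∑ k ∈ range K, ∏ h ∈ T, sg ((a (ν k + h) : ℕ) : ZMod 2) + K) - K / 2 ^ H.card =
      1 / 2 ^ H.card * ∑ T ∈ H.powerset.erase ∅, (∏ h ∈ T, s h) *
      ∑ k ∈ range K, ∏ h ∈ T, sg ((a (ν k + h) : ℕ) : ZMod 2) := by ring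
  rw [h1, abs_mul]
  have h2 : |(1 : ℝ) / 2 ^ H.card| ≤ 1 := by
    rw [abs_of_nonneg (by positivity), div_le_one (by positivity)]
    exact one_le_pow₀ (by norm_num)
  have h3 : |∑ T ∈ H.powerset.erase ∅, (∏ h ∈ T, s h) *
      ∑ k ∈ range K, ∏ h ∈ T, sg ((a (ν k + h) : ℕ) : ZMod 2)| ≤
      (∑ T ∈ H.powerset, |C T|) * e K := by
    refine (abs_sum_le_sum_abs _ _).trans ?_
    rw [sum_mul]
    refine (sum_le_sum fun T hT => ?_).trans
      (sum_le_sum_of_subset_of_nonneg (erase_subset _ _) fun T _ _ => mul_nonneg (abs_nonneg _) (he K))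
    rw [mem_erase] at hT
    rw [abs_mul, abs_prod]
    have h4 : ∏ h ∈ T, |s h| = 1 := prod_eq_one fun h _ => by
      simp only [hs]; split_ifs <;> simp
    rw [h4, one_mul]
    refine (hC T (nonempty_iff_ne_empty.2 hT.1) K).trans ?_
    exact mul_le_mul_of_nonneg_right (le_abs_self _) (he K)
  calc |(1 : ℝ) / 2 ^ H.card| * |∑ T ∈ H.powerset.erase ∅, (∏ h ∈ T, s h) *
      ∑ k ∈ range K, ∏ h ∈ T, sg ((a (ν k + h) : ℕ) : ZMod 2)|
      ≤ 1 * ((∑ T ∈ H.powerset, |C T|) * e K) :=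
        mul_le_mul h2 h3 (abs_nonneg _) (by norm_num)
    _ = _ := one_mul _



/-- Patterns of parities. -/
def Pat (a : ℕ → ℤ) (ν : ℕ → ℕ) : Prop :=
  ∀ H O : Finset ℕ, ∃ C : ℝ, ∀ K : ℕ,
    |(Nat.card {k : ℕ // k < K ∧ ∀ h ∈ H, (Odd (a (ν k + h)) ↔ h ∈ O)} : ℝ) -
      (K : ℝ) / 2 ^ H.card| ≤ C * (K / Real.sqrt ((Nat.log 2 K : ℝ) + 1))

lemma Pat.of {a : ℕ → ℤ} {ν : ℕ → ℕ} (h : ∀ H : Finset ℕ, H.Nonempty → ∃ C : ℝ, ∀ K : ℕ,
      |∑ k ∈ range K, ∏ h ∈ H, sg ((a (ν k + h) : ℤ) : ZMod 2)| ≤ C * er K) :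
    Pat a ν := by
  classical
  intro H O
  have h1 : ∀ n : ℕ, (((a n).natAbs : ℕ) : ZMod 2) = ((a n : ℤ) : ZMod 2) := by
    intro n
    rcases Int.natAbs_eq (a n) with h | h
    · conv_rhs => rw [h]
      rw [Int.cast_natCast]
    · conv_rhs => rw [h]
      rw [Int.cast_neg, Int.cast_natCast, CharTwo.neg_eq]
  obtain ⟨C, hC⟩ := pattern3 er_nonneg (a := fun n => (a n).natAbs) (ν := ν) (fun H hH => by
    obtain ⟨C, hC⟩ := h H hH
    refine ⟨C, fun K => ?_⟩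
    simp only [h1]
    exact hC K) H O
  refine ⟨C, fun K => ?_⟩
  have h2 : Nat.card {k : ℕ // k < K ∧ ∀ h ∈ H, (Odd (a (ν k + h)) ↔ h ∈ O)} =
      ((range K).filter fun k => ∀ h ∈ H, (Odd (a (ν k + h)).natAbs ↔ h ∈ O)).card := by
    refine Nat.subtype_card _ fun k => ?_
    rw [mem_filter, mem_range]
    simp only [Int.natAbs_odd]
  rw [h2]
  exact hC K

theorem mainL {Ω : Type u} [MeasurableSpace Ω] {P : Measure Ω} [IsProbabilityMeasure P]
    {D : Ω → Set ℕ} (hD : RandomSet P D) {ν : ℕ → ℕ} (hν : StrictMono ν) :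
    ∀ᵐ ω ∂P, ∀ D' : Set ℕ, (symmDiff D' (D ω)).Finite → ∀ t : ℕ, Odd t →
        Pat (fun n => (pt t D' n : ℤ)) ν := by
  have hset : ∀ (D' D₀ : Set ℕ) (h : (symmDiff D' D₀).Finite),
      D' = symmDiff (h.toFinset : Set ℕ) D₀ := by
    intro D' D₀ h
    rw [h.coe_toFinset, symmDiff_symmDiff_cancel_right]
  have h1 : ∀ᵐ ω ∂P, ∀ F : Finset ℕ, ∀ t : ℕ, Odd t →
      Pat (fun n => (pt t (symmDiff (F : Set ℕ) (D ω)) n : ℤ)) ν := by
    rw [ae_all_iff]
    intro F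
    rw [ae_all_iff]
    intro t
    by_cases ht : Odd t
    · filter_upwards [products3 hD ((bt_good ht).mix (F : Set ℕ))
        ((bt_dep t).mix (F : Set ℕ)) hν] with ω hω
      intro _
      refine Pat.of fun H hH => ?_
      obtain ⟨C, hC⟩ := hω H hH
      refine ⟨C, fun K => ?_⟩
      simp only [Int.cast_natCast, pt_cast]
      exact hC K
    · exact Eventually.of_forall fun ω h => absurd h ht
  filter_upwards [h1] with ω hω
  intro D' hfin t ht
  have h2 := hω hfin.toFinset t ht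
  rwa [← hset D' (D ω) hfin] at h2

end Pool.Agent.X149.PP.Lg
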